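import Pool.Agent.H923R2.FZ.Stubs3

set_option autoImplicit false

open scoped ComplexConjugate ENNReal

noncomputable section

namespace Pool.Agent.H923R2.FZ.T_AMP

open Pool.Agent.H923R2.FP

theorem AMP_sq {X : Type} (ξ : l2 X) : HasSum (fun x => ‖ξ x‖ ^ 2) (‖ξ‖ ^ 2) := by
  have h := lp.hasSum_norm (p := 2) (by norm_num) ξ
  simpa using h

theorem AMP_mem {X : Type} (f : X → ℂ) (h : Summable fun x => ‖f x‖ ^ 2) :
    Memℓp f 2 := by
  apply memℓp_gen
  simpa using h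

/-- slices -/
def sl {X Y : Type} (y : Y) (ξ : l2 (X × Y)) : l2 X :=
  ⟨fun x => ξ (x, y), AMP_mem _ ((AMP_sq ξ).summable.comp_injective
    (i := fun x => (x, y)) (fun a b h => by simpa using h))⟩

theorem sl_apply {X Y : Type} (y : Y) (ξ : l2 (X × Y)) (x : X) : sl y ξ x = ξ (x, y) := rfl

theorem sl_sq {X Y : Type} (ξ : l2 (X × Y)) : HasSum (fun y => ‖sl y ξ‖ ^ 2) (‖ξ‖ ^ 2) := by
  have h := AMP_sq ξ
  rw [← (Equiv.prodComm Y X).hasSum_iff] at h
  exact h.prod_fiberwise fun y => AMP_sq (sl y ξ)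

theorem sl_add {X Y : Type} (y : Y) (ξ η : l2 (X × Y)) : sl y (ξ + η) = sl y ξ + sl y η := rfl

theorem sl_smul {X Y : Type} (y : Y) (c : ℂ) (ξ : l2 (X × Y)) : sl y (c • ξ) = c • sl y ξ := rfl

/-- the amplified operator -/
def am {X Y : Type} (T : l2 X →L[ℂ] l2 X) (ξ : l2 (X × Y)) : l2 (X × Y) :=
  ⟨fun p => (T (sl p.2 ξ)) p.1, AMP_mem _ (by
    rw [← (Equiv.prodComm Y X).summable_iff, summable_prod_of_nonneg (fun _ => by
      simp only [Function.comp, Pi.zero_apply]; positivity)]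
    have hy : ∀ y : Y, HasSum (fun x : X => ‖(T (sl y ξ)) x‖ ^ 2) (‖T (sl y ξ)‖ ^ 2) :=
      fun y => AMP_sq _
    refine ⟨fun y => (hy y).summable, ?_⟩
    have h2 : (fun y : Y => ∑' x : X,
        ((fun p : X × Y => ‖(T (sl p.2 ξ)) p.1‖ ^ 2) ∘ (Equiv.prodComm Y X)) (y, x)) =
        fun y => ‖T (sl y ξ)‖ ^ 2 := by
      funext y
      exact (hy y).tsum_eq
    rw [h2]
    refine Summable.of_nonneg_of_le (fun y => by positivity) (fun y => ?_)
      ((sl_sq ξ).summable.mul_left (‖T‖ ^ 2))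
    rw [← mul_pow]
    exact pow_le_pow_left₀ (norm_nonneg _) (T.le_opNorm _) 2)⟩

theorem am_apply {X Y : Type} (T : l2 X →L[ℂ] l2 X) (ξ : l2 (X × Y)) (p : X × Y) :
    am T ξ p = (T (sl p.2 ξ)) p.1 := rfl

theorem sl_am {X Y : Type} (T : l2 X →L[ℂ] l2 X) (ξ : l2 (X × Y)) (y : Y) :
    sl y (am T ξ) = T (sl y ξ) := by
  ext x; rfl

theorem am_norm {X Y : Type} (T : l2 X →L[ℂ] l2 X) (ξ : l2 (X × Y)) :
    ‖am T ξ‖ ≤ ‖T‖ * ‖ξ‖ := by
  have h1 := sl_sq (am T ξ)
  simp only [sl_am] at h1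
  have h2 := (sl_sq ξ).mul_left (‖T‖ ^ 2)
  have h3 : ‖am T ξ‖ ^ 2 ≤ ‖T‖ ^ 2 * ‖ξ‖ ^ 2 := by
    refine hasSum_le (fun y => ?_) h1 h2
    rw [← mul_pow]
    exact pow_le_pow_left₀ (norm_nonneg _) (T.le_opNorm _) 2
  rw [← mul_pow] at h3
  exact (pow_le_pow_iff_left₀ (norm_nonneg _) (by positivity) two_ne_zero).1 h3

/-- the amplified operator -/
def Am {X : Type} (Y : Type) (T : l2 X →L[ℂ] l2 X) : l2 (X × Y) →L[ℂ] l2 (X × Y) :=
  LinearMap.mkContinuous
    { toFun := am T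
      map_add' := fun ξ η => by
        ext p
        change (T (sl p.2 (ξ + η))) p.1 = (T (sl p.2 ξ)) p.1 + (T (sl p.2 η)) p.1
        rw [sl_add, map_add]; rfl
      map_smul' := fun c ξ => by
        ext p
        change (T (sl p.2 (c • ξ))) p.1 = c • (T (sl p.2 ξ)) p.1
        rw [sl_smul, map_smul]; rfl }
    ‖T‖ (am_norm T)

theorem Am_apply {X Y : Type} (T : l2 X →L[ℂ] l2 X) (ξ : l2 (X × Y)) :
    Am Y T ξ = am T ξ := rfl

theorem inner_dl2 {X : Type} (x : X) (ξ : l2 X) : inner ℂ (dl2 x) ξ = ξ x := by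
  classical
  unfold dl2
  rw [lp.inner_single_left]
  simp

theorem l2_ext {P : Type} (S T : l2 P →L[ℂ] l2 P)
    (h : ∀ p q, inner ℂ (dl2 p) (S (dl2 q)) = inner ℂ (dl2 p) (T (dl2 q))) : S = T := by
  classical
  have h1 : ∀ q, S (dl2 q) = T (dl2 q) := by
    intro q
    ext p
    have := h p q
    rwa [inner_dl2, inner_dl2] at this
  ext1 ξ
  have h2 : HasSum (fun q => ξ q • dl2 q) ξ := by
    have := lp.hasSum_single (p := 2) (by norm_num) ξ
    convert this using 2 with q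
    unfold dl2
    rw [← lp.single_smul]
    congr 1
    · simp
  have h3 := h2.mapL S
  have h4 := h2.mapL T
  simp only [map_smul, h1] at h3 h4
  exact h3.unique h4

theorem dl2_apply {X : Type} (x' x : X) [Decidable (x = x')] :
    dl2 x' x = if x = x' then 1 else 0 := by
  classical
  unfold dl2
  by_cases h : x = x'
  · subst h; rw [lp.single_apply_self]; simp
  · rw [lp.single_apply_ne _ _ _ h]; simp [h]

open Classical in
theorem sl_dl2 {X Y : Type} (y : Y) (x' : X) (y' : Y) :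
    sl y (dl2 (x', y')) = if y = y' then dl2 x' else 0 := by
  ext x
  rw [sl_apply, dl2_apply]
  split_ifs with h1 h2 h2
  · rw [dl2_apply]; simp_all
  · simp_all
  · rw [dl2_apply]
    by_cases hx : x = x'
    · subst hx; subst h2; exact absurd rfl h1
    · simp [hx]
  · rfl

open Classical in
theorem Am_coef {X Y : Type} (T : l2 X →L[ℂ] l2 X) (x x' : X) (y y' : Y) :
    inner ℂ (dl2 (x, y)) (Am Y T (dl2 (x', y'))) =
      if y = y' then inner ℂ (dl2 x) (T (dl2 x')) else 0 := by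
  rw [inner_dl2, Am_apply, am_apply, sl_dl2]
  split_ifs with h
  · rw [inner_dl2]
  · rw [map_zero]; rfl

/-- the amplification -/
def AmHom (X Y : Type) : (l2 X →L[ℂ] l2 X) →⋆ₐ[ℂ] (l2 (X × Y) →L[ℂ] l2 (X × Y)) where
  toFun := Am Y
  map_one' := by
    ext ξ p; rfl
  map_mul' S T := by
    ext1 ξ
    change am (S * T) ξ = am S (am T ξ)
    ext p
    rw [am_apply, am_apply, sl_am]; rfl
  map_zero' := by
    ext ξ p; rfl
  map_add' S T := by
    ext ξ p; rfl
  commutes' r := by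
    ext ξ p; rfl
  map_star' T := by
    classical
    apply l2_ext
    rintro ⟨x, y⟩ ⟨x', y'⟩
    rw [Am_coef, ContinuousLinearMap.star_eq_adjoint, ContinuousLinearMap.star_eq_adjoint,
      ContinuousLinearMap.adjoint_inner_right, ContinuousLinearMap.adjoint_inner_right,
      ← inner_conj_symm, ← inner_conj_symm (Am Y T _), Am_coef]
    by_cases h : y = y'
    · subst h; simp
    · have h' : ¬ y' = y := fun e => h e.symm
      simp [h, h']

theorem t_AMP : S_AMP := by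
  intro X Y
  exact ⟨AmHom X Y, fun T x x' y y' => Am_coef T x x' y y'⟩

end Pool.Agent.H923R2.FZ.T_AMP
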