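import Pool.Agent.H923R2.FZ.Stubs2

set_option autoImplicit false

open scoped ComplexConjugate

noncomputable section

namespace Pool.Agent.H923R2.FZ.T_CLO

open Pool.Agent.H923R2.FP

variable {A : Type} [CStarAlgebra A]

theorem CLO_closure (τ : A →ₗ[ℂ] ℂ) (h1 : τ 1 = 1) (hb : ∀ x, ‖τ x‖ ≤ ‖x‖)
    (S : StarSubalgebra ℂ A) (x : A) (hx : x ∈ S.topologicalClosure) (h0 : τ x = 0) :
    x ∈ closure {y : A | y ∈ S ∧ τ y = 0} := by
  have hτ : Continuous τ := by
    exact AddMonoidHomClass.continuous_of_bound τ 1 (fun x => by simpa using hb x)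
  have hg : Continuous fun y : A => y - τ y • (1 : A) := by
    fun_prop
  have hx' : x ∈ closure (S : Set A) := by
    rw [← StarSubalgebra.topologicalClosure_coe]; exact hx
  have := map_mem_closure (f := fun y : A => y - τ y • (1 : A)) (t := {y : A | y ∈ S ∧ τ y = 0})
    hg hx' ?_
  · simpa [h0] using this
  · intro y hy
    refine ⟨?_, ?_⟩
    · exact sub_mem hy (SMulMemClass.smul_mem _ (one_mem S))
    · simp [h1]

theorem CLO_main {K : Type} (τ : A →ₗ[ℂ] ℂ) (h1 : τ 1 = 1) (hb : ∀ x, ‖τ x‖ ≤ ‖x‖)
    (S : K → StarSubalgebra ℂ A) (hS : FreeFam τ S) :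
    FreeFam τ fun k => (S k).topologicalClosure := by
  classical
  intro w hw hz hc
  have hτ : Continuous τ := by
    exact AddMonoidHomClass.continuous_of_bound τ 1 (fun x => by simpa using hb x)
  set n := w.length with hn
  set k : Fin n → K := fun i => (w.get i).1 with hk
  set a : Fin n → A := fun i => (w.get i).2 with ha
  have e1 : w = (List.finRange n).map fun i => (k i, a i) := by
    have h : (List.finRange n).map (fun i => w.get i) = w := by
      rw [← List.ofFn_eq_map]; exact List.ofFn_get w
    conv_lhs => rw [← h]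
  have ha' : a ∈ Set.pi Set.univ fun i => closure {y : A | y ∈ S (k i) ∧ τ y = 0} := by
    intro i _
    have := hz (w.get i) (List.get_mem w i)
    exact CLO_closure τ h1 hb (S (k i)) (a i) this.1 this.2
  rw [← closure_pi_set] at ha'
  have hcont : Continuous fun b : Fin n → A => τ (((List.finRange n).map fun i => b i).prod) := by
    refine hτ.comp ?_
    exact continuous_list_prod (f := fun i (b : Fin n → A) => b i) _ fun i _ => continuous_apply i
  have hcl : IsClosed {b : Fin n → A | τ (((List.finRange n).map fun i => b i).prod) = 0} :=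
    isClosed_eq hcont continuous_const
  have hsub : (Set.pi Set.univ fun i => {y : A | y ∈ S (k i) ∧ τ y = 0}) ⊆
      {b : Fin n → A | τ (((List.finRange n).map fun i => b i).prod) = 0} := by
    intro b hbm
    have hfree := hS ((List.finRange n).map fun i => (k i, b i)) ?_ ?_ ?_
    · rw [List.map_map] at hfree
      exact hfree
    · intro h
      apply hw
      rw [e1]
      have : (List.finRange n) = [] := by simpa using h
      simp [this]
    · intro z hzm
      rw [List.mem_map] at hzm
      obtain ⟨i, _, rfl⟩ := hzm
      exact hbm i (Set.mem_univ i)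
    · rw [List.isChain_map]
      have h2 := hc
      rw [e1, List.isChain_map] at h2
      exact h2
  have := closure_minimal hsub hcl ha'
  rw [e1, List.map_map]
  exact this

theorem t_CLO : S_CLO := by
  intro A _ τ hτ K S hS
  exact CLO_main τ hτ.one hτ.bound S hS

end Pool.Agent.H923R2.FZ.T_CLO
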