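import Pool.Agent.H923R2.FZ.Stubs2

set_option autoImplicit false

open scoped ComplexConjugate

noncomputable section

namespace Pool.Agent.H923R2.FZ.T_SUB

open Pool.Agent.H923R2.FP

variable {A : Type} [CStarAlgebra A]

theorem SUB_fts (τ : A →ₗ[ℂ] ℂ) (h : FTS τ) (T : StarSubalgebra ℂ A) [IsClosed (T : Set A)] :
    FTS (τ.comp T.subtype.toAlgHom.toLinearMap) := by
  have e : ∀ x : T, (τ.comp T.subtype.toAlgHom.toLinearMap) x = τ (x : A) := fun x => rfl
  refine ⟨?_, ?_, ?_, ?_, ?_, ?_⟩
  · rw [e]; simpa using h.one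
  · intro x y
    rw [e, e]; exact h.comm x y
  · intro x
    rw [e, e]; exact h.str x
  · intro x
    rw [e]; exact h.nonneg x
  · intro x hx
    rw [e] at hx
    exact Subtype.ext (h.faith x hx)
  · intro x
    rw [e]; exact h.bound x

theorem SUB_prod (τ : A →ₗ[ℂ] ℂ) (T : StarSubalgebra ℂ A) {K : Type} (w : List (K × T)) :
    (τ.comp T.subtype.toAlgHom.toLinearMap) (w.map Prod.snd).prod =
      τ (((w.map fun z => (z.1, (z.2 : A))).map Prod.snd).prod) := by
  have h1 : ((w.map fun z => (z.1, (z.2 : A))).map Prod.snd) = (w.map Prod.snd).map T.subtype := by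
    rw [List.map_map, List.map_map]; rfl
  rw [h1, ← map_list_prod]
  rfl

theorem t_SUB : S_SUB := by
  classical
  intro A _ τ hτ T hT
  refine ⟨SUB_fts τ hτ T, ?_⟩
  intro K S
  constructor
  · intro hf w hw hz hc
    rw [SUB_prod]
    apply hf
    · simpa using hw
    · intro z hzm
      rw [List.mem_map] at hzm
      obtain ⟨y, hy, rfl⟩ := hzm
      refine ⟨⟨y.2, (hz y hy).1, rfl⟩, (hz y hy).2⟩
    · rw [List.isChain_map]
      exact hc
  · intro hf w hw hz hc
    set g : K × A → K × T := fun z =>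
      (z.1, if h : ∃ y : T, y ∈ S z.1 ∧ (y : A) = z.2 then h.choose else 0) with hg
    have hex : ∀ z ∈ w, ∃ y : T, y ∈ S z.1 ∧ (y : A) = z.2 := by
      intro z hzm
      obtain ⟨y, hy, hy2⟩ := (hz z hzm).1
      exact ⟨y, hy, hy2⟩
    have hg2 : ∀ z ∈ w, (g z).2 ∈ S z.1 ∧ ((g z).2 : A) = z.2 := by
      intro z hzm
      have h := hex z hzm
      have : (g z).2 = h.choose := dif_pos h
      rw [this]
      exact h.choose_spec
    have hw' : (w.map g).map (fun z => (z.1, (z.2 : A))) = w := by
      rw [List.map_map]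
      conv_rhs => rw [← List.map_id w]
      apply List.map_congr_left
      intro z hzm
      have := (hg2 z hzm).2
      simp only [Function.comp, id]
      exact Prod.ext rfl this
    have key := SUB_prod τ T (w.map g)
    rw [hw'] at key
    rw [← key]
    apply hf
    · simpa using hw
    · intro z hzm
      rw [List.mem_map] at hzm
      obtain ⟨y, hy, rfl⟩ := hzm
      refine ⟨(hg2 y hy).1, ?_⟩
      have h2 := (hg2 y hy).2
      change τ ((g y).2 : A) = 0
      rw [h2]
      exact (hz y hy).2
    · rw [List.isChain_map]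
      exact hc

end Pool.Agent.H923R2.FZ.T_SUB
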